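import Pool.Agent.P.MP_de899d_pr.Whole

namespace Pool.Agent.Results.MP_de899d_pr.Full
open Filter Topology Pool.Agent.P.MP_de899d_pr

theorem result : Tendsto (fun n : ℕ =>
    (Nat.card {o : EdgeOrder n // ∀ m : ℕ, m ≤ n * (n - 1) →
      Packs (process o m) (minDeg (process o m))} : ℝ) /
        Nat.card (EdgeOrder n)) atTop (𝓝 1) := by
  classical
  have hlog : Tendsto (fun n : ℕ => Real.log n) atTop atTop :=
    Real.tendsto_log_atTop.comp tendsto_natCast_atTop_atTop
  have h1 : Tendsto (fun n : ℕ => 1 - 40 / Real.log n) atTop (𝓝 (1 - 0)) :=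
    (tendsto_const_nhds.div_atTop hlog).const_sub 1
  rw [sub_zero] at h1
  have key : ∀ n : ℕ, ∀ E : EdgeOrder n → Prop,
      (Nat.card {o // E o} : ℝ) / Nat.card (EdgeOrder n) =
        1 - Pr fun o => ¬ E o := fun n E => by
    have : Nonempty (EdgeOrder n) :=
      ⟨Fintype.equivFinOfCardEq (card_arc n)⟩
    rw [Pr_not, sub_sub_cancel, Pr_eq_card, Nat.card_eq_fintype_card, Nat.card_eq_fintype_card,
      Fintype.card_subtype]
  simp only [key]
  refine tendsto_of_tendsto_of_tendsto_of_le_of_le' h1 tendsto_const_nhds ?_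
    (Eventually.of_forall fun n => sub_le_self _ (Pr_nonneg _))
  filter_upwards [hlog.eventually_ge_atTop (2 * Real.exp (10 ^ 20) + 10 ^ 50)] with n hn
  refine sub_le_sub_left (le_trans (Pr_mono fun o ho => ?_) (whole_bound n hn)) 1
  by_contra h
  exact ho fun m _ => not_not.mp fun h' => h ⟨m, h'⟩

end Pool.Agent.Results.MP_de899d_pr.Full
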