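import Pool.Agent.P.MP_de899d_pr.RG.Top

namespace Pool.Agent.Results.MP_de899d_pr.RegularDecomposition
open Finset Pool.Agent.P.MP_de899d_pr

theorem result : ∀ (Y n k r : ℕ) (G : Finset (Fin n × Fin n)), 10 ^ 20 ≤ Y → Y ^ 264 ≤ n →
    (∀ v, (v, v) ∉ G) →
    (∀ A B : Finset (Fin n), n ≤ Y ^ 160 * A.card → n ≤ Y ^ 160 * B.card →
      A.card * B.card ≤ Y * (G.filter fun e => e.1 ∈ A ∧ e.2 ∈ B).card) →
    (∀ v, k ≤ (G.filter fun e => e.1 = v).card ∧ (G.filter fun e => e.1 = v).card ≤ k + r) →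
    (∀ v, k ≤ (G.filter fun e => e.2 = v).card ∧ (G.filter fun e => e.2 = v).card ≤ k + r) →
    Y ^ 162 * r ≤ n →
    2 * (univ.filter fun v : Fin n =>
      Y ^ 150 * (G.filter fun e => e.1 = v).card < Y ^ 150 * k + r).card ≤ k →
    2 * (univ.filter fun v : Fin n =>
      Y ^ 150 * (G.filter fun e => e.2 = v).card < Y ^ 150 * k + r).card ≤ k →
    Packs G k := by
  intro Y n k r G hY hn hI hD h1 h2 hr h3 h4
  have n2 : 2 ≤ n := le_trans (le_trans (by omega) (Nat.le_self_pow (by norm_num) Y)) hn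
  obtain ⟨H, c1, c2, c3⟩ := RG.near (V := Fin n) (G := fun e => e ∈ G) (k := k) (r := r) hY
    (by simpa using hn) hI (fun x => by rw [RG.out_eq]; exact h1 x)
    (fun x => by rw [RG.in_eq]; exact h2 x) (by simpa using hr)
    (by simpa only [RG.out_eq] using h3) (by simpa only [RG.in_eq] using h4)
    (fun X W hX hW => by
      rw [RG.eN_eq]
      exact hD X W (by simpa using hX) (by simpa using hW))
  exact ⟨H, fun j => ⟨(RG.ham_cyc n2 (c1 j)).1, (RG.ham_cyc n2 (c1 j)).2, c3 j⟩, c2⟩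

end Pool.Agent.Results.MP_de899d_pr.RegularDecomposition
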